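import Pool.Agent.LibZP46.H2

set_option autoImplicit false

namespace Pool.Agent.Results.MP_e6719f_nt.AllFourValues

/-- The Franel numbers. -/
def F (n : ℕ) : ℕ := ∑ k ∈ Finset.range (n + 1), n.choose k ^ 3

/-- `Z_p(m)`, a rational number. -/
def Z (p m : ℕ) : ℚ := ∑ n ∈ Finset.range p, ((2 * n).choose n : ℚ) * (F n : ℚ) / (m : ℚ) ^ n

/-- `f(5) = 320`, `f(7) = 896`, `f(13) = 10400`, `f(17) = 39200`. -/
def f (b : ℕ) : ℕ := if b = 5 then 320 else if b = 7 then 896 else if b = 13 then 10400 else 39200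

/-- The rational numbers `r` and `s` are congruent modulo `p ^ 2`: their difference is `p ^ 2` times
a rational number with denominator prime to `p`. -/
def Cong (p : ℕ) (r s : ℚ) : Prop := ∃ c : ℚ, ¬ p ∣ c.den ∧ r - s = (p : ℚ) ^ 2 * c

theorem result : ∀ b : ℕ, b = 5 ∨ b = 7 ∨ b = 13 ∨ b = 17 →
    ∀ (p : ℕ) [Fact p.Prime], 5 ≤ p → p ≠ b → ¬ p ∣ f b →
      (∀ x y : ℤ, (p : ℤ) = x ^ 2 + 6 * b * y ^ 2 → Cong p (Z p (f b)) (4 * x ^ 2 - 2 * p)) ∧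
      (∀ x y : ℤ, (p : ℤ) = 2 * x ^ 2 + 3 * b * y ^ 2 → Cong p (Z p (f b)) (8 * x ^ 2 - 2 * p)) ∧
      (∀ x y : ℤ, (p : ℤ) = 3 * x ^ 2 + 2 * b * y ^ 2 → Cong p (Z p (f b)) (2 * p - 12 * x ^ 2)) ∧
      (∀ x y : ℤ, (p : ℤ) = 6 * x ^ 2 + b * y ^ 2 → Cong p (Z p (f b)) (2 * p - 24 * x ^ 2)) ∧
      (legendreSym p (-6 * b) = -1 → Cong p (Z p (f b)) 0) := by
  intro b hb p _ h5 hpb hpf
  exact Pool.Agent.LibZP46.main b hb p h5 hpb hpf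

end Pool.Agent.Results.MP_e6719f_nt.AllFourValues
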